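import Pool.Agent.Helper19.TGX.Goals

/-!
# TGX-C1A (project TGX, MP_a41896_nt): an additive map is odd
-/

set_option autoImplicit false

namespace Pool.Agent.Helper75.TGX.C1A

open WeierstrassCurve
open Pool.Agent.Helper19.TGX
open Pool.Agent.Helper29.BL Pool.Agent.Helper42.SG
open Pool.Agent.Helper60.T3 (WL)
open Pool.Agent.Helper92.TG (mp)

theorem xc_neg {F : Type} [Field F] {W : Affine F} (P : W.Point) : xc (-P) = xc P := by
  rcases P with _ | ⟨x, y, h⟩ <;> rfl

theorem t (h2 : IN2) (h3 : IN3) : Pool.Agent.Helper19.TGX.C1A := by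
  intro k _ _ _ _ W W' hW _ g hg F _ _ _ P hPt
  obtain ⟨F', _, _, _, j, Q, hind⟩ := h3 k W hW F P hPt
  have hz : mp (Algebra.ofId k F') (0 : (WL k W').Point) = 0 := map_zero _
  have e1 := hg F' (mp j P) Q hind
  have hin := h2 k W hW F' (mp j P) Q hind
  have e2 := hg F' (mp j P + Q) (-(mp j P)) hin.2.2.2
  rw [hz, add_zero] at e1 e2
  have e3 : mp j P + Q + -(mp j P) = Q := by abel
  rw [e3, e1] at e2
  have e4 : g.f F' (-(mp j P)) = -g.f F' (mp j P) := by
    have e5 : g.f F' (mp j P) + g.f F' (-(mp j P)) = 0 := by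
      have e6 : g.f F' Q + (g.f F' (mp j P) + g.f F' (-(mp j P))) = g.f F' Q + 0 := by
        rw [add_zero]
        calc g.f F' Q + (g.f F' (mp j P) + g.f F' (-(mp j P)))
            = g.f F' (mp j P) + g.f F' Q + g.f F' (-(mp j P)) := by abel
          _ = g.f F' Q := e2.symm
      exact add_left_cancel e6
    exact (neg_eq_of_add_eq_zero_right e5).symm
  have e7 : mp j (-P) = -(mp j P) := map_neg _ _
  have e8 := g.nat F F' j P hPt
  have e9 := g.nat F F' j (-P) (by rw [xc_neg]; exact hPt)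
  refine Affine.Point.map_injective (f := j) ?_
  have e10 : mp j (-g.f F P) = -(mp j (g.f F P)) := map_neg _ _
  change mp j (g.f F (-P)) = mp j (-g.f F P)
  rw [← e9, e7, e4, e8, e10]

end Pool.Agent.Helper75.TGX.C1A
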